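import Pool.Agent.Work.MP_223b32_FY.Interface

/-!
Block ALT: all 3-cycles of roots come from the Galois group (from FROB, PERM).
-/

set_option autoImplicit false

namespace Pool.Agent.Work.FY

open Polynomial Finset Pool.Agent.Work.MP_223b32_ag
open Pool.Agent.Work.MP_223b32_ag_56 Pool.Agent.Work.FF

namespace ALT17

theorem aeval_iff {L : Type} [Field L] [NumberField L] (h : ℤ[X]) (τ : Gal(L/ℚ)) (x : L) :
    aeval x h = 0 ↔ aeval (τ x) h = 0 := by
  have h1 : τ (aeval x h) = aeval (τ x) h := by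
    have h2 := Polynomial.hom_eval₂ h (algebraMap ℤ L) (τ : L ≃ₐ[ℚ] L).toRingEquiv.toRingHom x
    have h3 : ((τ : L ≃ₐ[ℚ] L).toRingEquiv.toRingHom).comp (algebraMap ℤ L) = algebraMap ℤ L :=
      Subsingleton.elim _ _
    rw [h3] at h2
    exact h2
  constructor
  · intro h2
    rw [← h1, h2, map_zero]
  · intro h2
    rw [← h1] at h2
    exact (_root_.map_eq_zero τ).1 h2

/-- the permutation of the roots -/
noncomputable def phi (L : Type) [Field L] [NumberField L] (h : ℤ[X]) :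
    Gal(L/ℚ) →* Equiv.Perm {r : L // aeval r h = 0} :=
  MonoidHom.mk' (fun τ => Equiv.Perm.subtypePerm (τ.toEquiv : Equiv.Perm L)
    (fun x => (aeval_iff h τ x).symm))
    (fun σ τ => by
      ext x
      rfl)

theorem phi_apply (L : Type) [Field L] [NumberField L] (h : ℤ[X]) (τ : Gal(L/ℚ))
    (x : {r : L // aeval r h = 0}) : ((phi L h τ x : {r : L // aeval r h = 0}) : L) = τ x.1 := rfl

end ALT17

theorem stmt_ALT (hF : FF.Stmt_FROB) (hP : Stmt_PERM) : Stmt_ALT := by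
  classical
  intro q ℓ g k d₁ d₂ d₃ hℓ h hℓ2 hq hadm hm hdeg hirr hpat L iF iN iG hsp a b c ha hb hc hab hbc hac
  obtain ⟨hA, hc12, hc1g, h8⟩ := hadm
  obtain ⟨σ, C₁, C₂, C₃, N, hroots, hd12, hd13, hd23, hk1, hk2, hk3, ht1, ht2, ht3, hs1, hs2, hs3,
    -, -, -⟩ := hF L q ℓ g k d₁ d₂ d₃ h hℓ2 hq hA hm hdeg hsp hpat
  obtain ⟨hsum, h3a, h3b, -, -, -, -, -, hc13, -⟩ := hA
  have hmem : ∀ x : L, x ∈ C₁ ∪ C₂ ∪ C₃ ↔ aeval x h = 0 := by
    intro x
    rw [hroots x, mem_union, mem_union, or_assoc]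
  have : Fintype {r : L // aeval r h = 0} := Fintype.subtype (C₁ ∪ C₂ ∪ C₃) hmem
  have hcard : Fintype.card {r : L // aeval r h = 0} = g := by
    rw [Fintype.card_of_subtype (C₁ ∪ C₂ ∪ C₃) hmem, card_union_of_disjoint,
      card_union_of_disjoint hd12, hk1, hk2, hk3, hsum]
    rw [disjoint_union_left]
    exact ⟨hd13, hd23⟩
  have hsub : ∀ C : Finset L, (∀ x ∈ C, aeval x h = 0) →
      (C.subtype (fun r => aeval r h = 0)).card = C.card := by
    intro C hC
    rw [card_subtype]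
    rw [filter_true_of_mem hC]
  have hC1 : ∀ x ∈ C₁, aeval x h = 0 := fun x hx => (hroots x).2 (Or.inl hx)
  have hC2 : ∀ x ∈ C₂, aeval x h = 0 := fun x hx => (hroots x).2 (Or.inr (Or.inl hx))
  have hC3 : ∀ x ∈ C₃, aeval x h = 0 := fun x hx => (hroots x).2 (Or.inr (Or.inr hx))
  have hdis : ∀ C C' : Finset L, Disjoint C C' →
      Disjoint (C.subtype (fun r => aeval r h = 0)) (C'.subtype (fun r => aeval r h = 0)) := by
    intro C C' hd
    rw [disjoint_left]
    intro x hx hx'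
    rw [mem_subtype] at hx hx'
    exact disjoint_left.1 hd hx hx'
  have hst : ∀ C : Finset L, (∀ x ∈ C, σ x ∈ C) →
      ∀ x ∈ C.subtype (fun r => aeval r h = 0),
        ALT17.phi L h σ x ∈ C.subtype (fun r => aeval r h = 0) := by
    intro C hC x hx
    rw [mem_subtype] at hx ⊢
    rw [ALT17.phi_apply]
    exact hC _ hx
  have htr : ∀ C : Finset L, (∀ x ∈ C, ∀ y ∈ C, ∃ n : ℕ, (σ ^ n) x = y) →
      ∀ x ∈ C.subtype (fun r => aeval r h = 0), ∀ y ∈ C.subtype (fun r => aeval r h = 0),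
        ∃ n : ℕ, (ALT17.phi L h σ ^ n) x = y := by
    intro C hC x hx y hy
    rw [mem_subtype] at hx hy
    obtain ⟨n, hn⟩ := hC _ hx _ hy
    refine ⟨n, Subtype.ext ?_⟩
    rw [← map_pow, ALT17.phi_apply]
    exact hn
  have hmain := hP {r : L // aeval r h = 0} (ALT17.phi L h).range (by
      intro u v
      obtain ⟨τ, hτ⟩ := GALAux.trans_roots hm hirr u.2 v.2
      exact ⟨ALT17.phi L h τ, ⟨τ, rfl⟩, Subtype.ext hτ⟩)
    (ALT17.phi L h σ) ⟨σ, rfl⟩
    (C₁.subtype (fun r => aeval r h = 0)) (C₂.subtype (fun r => aeval r h = 0))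
    (C₃.subtype (fun r => aeval r h = 0)) (by
      intro x
      rw [mem_subtype, mem_subtype, mem_subtype]
      exact (hroots _).1 x.2)
    (hdis _ _ hd12) (hdis _ _ hd13) (hdis _ _ hd23) (hst _ hs1) (hst _ hs2) (hst _ hs3)
    (htr _ ht1) (htr _ ht2) (htr _ ht3)
    (by rw [hsub _ hC1, hsub _ hC2, hk1, hk2]; exact hc12)
    (by rw [hsub _ hC1, hsub _ hC3, hk1, hk3]; exact hc13)
    (by rw [hsub _ hC1, hcard, hk1]; exact hc1g)
    (by rw [hsub _ hC2, hk2]; exact h3a)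
    (by rw [hsub _ hC3, hk3]; exact h3b)
    (by rw [hsub _ hC2, hsub _ hC3, hcard, hk2, hk3]; exact h8)
  -- the 3-cycle
  set A : {r : L // aeval r h = 0} := ⟨a, ha⟩ with hAdef
  set B : {r : L // aeval r h = 0} := ⟨b, hb⟩ with hBdef
  set Cc : {r : L // aeval r h = 0} := ⟨c, hc⟩ with hCdef
  have hAB : A ≠ B := fun h1 => hab (congrArg Subtype.val h1)
  have hBC : B ≠ Cc := fun h1 => hbc (congrArg Subtype.val h1)
  have hAC : A ≠ Cc := fun h1 => hac (congrArg Subtype.val h1)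
  have hmemA : Equiv.swap A B * Equiv.swap B Cc ∈ alternatingGroup {r : L // aeval r h = 0} := by
    rw [Equiv.Perm.mem_alternatingGroup, Equiv.Perm.sign_mul, Equiv.Perm.sign_swap hAB,
      Equiv.Perm.sign_swap hBC]
    rfl
  obtain ⟨τ, hτ⟩ := hmain hmemA
  have happ : ∀ x : {r : L // aeval r h = 0},
      τ x.1 = ((Equiv.swap A B * Equiv.swap B Cc) x).1 := by
    intro x
    rw [← hτ, ALT17.phi_apply]
  refine ⟨τ, ?_, ?_, ?_, ?_⟩
  · have h1 := happ A
    rw [Equiv.Perm.mul_apply, Equiv.swap_apply_of_ne_of_ne hAB hAC, Equiv.swap_apply_left] at h1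
    exact h1
  · have h1 := happ B
    rw [Equiv.Perm.mul_apply, Equiv.swap_apply_left,
      Equiv.swap_apply_of_ne_of_ne hAC.symm hBC.symm] at h1
    exact h1
  · have h1 := happ Cc
    rw [Equiv.Perm.mul_apply, Equiv.swap_apply_right, Equiv.swap_apply_right] at h1
    exact h1
  · intro r hr hra hrb hrc
    have h1 := happ ⟨r, hr⟩
    have e1 : (⟨r, hr⟩ : {r : L // aeval r h = 0}) ≠ A := fun h2 => hra (congrArg Subtype.val h2)
    have e2 : (⟨r, hr⟩ : {r : L // aeval r h = 0}) ≠ B := fun h2 => hrb (congrArg Subtype.val h2)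
    have e3 : (⟨r, hr⟩ : {r : L // aeval r h = 0}) ≠ Cc := fun h2 => hrc (congrArg Subtype.val h2)
    rw [Equiv.Perm.mul_apply, Equiv.swap_apply_of_ne_of_ne e2 e3,
      Equiv.swap_apply_of_ne_of_ne e1 e2] at h1
    exact h1

end Pool.Agent.Work.FY
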