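import Pool.Agent.Work.MP_223b32_FY.Interface2
import Pool.Agent.Work.MP_223b32_FF.FINALa
import Pool.Agent.Work.MP_223b32_FF.FINALb

/-!
# Block LARGE1 (adapted from FF.FINALc, FY.FINa, FY.FIN of helper56)
-/

namespace Pool.Agent.Work.FY

open Polynomial Finset Pool.Agent.Work.MP_223b32_ag_56 Pool.Agent.Work.FF

/-- Exceptions are reducible or have no good prime. -/
theorem LARGE1.exc_sub {p a g d₁ d₂ d₃ A Z : ℕ} (hp : p.Prime) (hA : 3 ≤ A) :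
    {h ∈ realWeil (p ^ a) g | ¬ (Irreducible (h.map (Int.castRingHom ℚ)) ∧
      HasPat (p ^ a) d₁ d₂ d₃ h)} ⊆
      {h ∈ realWeil (p ^ a) g | ¬ Irreducible (h.map (Int.castRingHom ℚ))} ∪
      (realWeil (p ^ a) g ∩ {h : ℤ[X] | ∀ ℓ ∈ (range (Z + 1)).filter
        (fun ℓ => ℓ.Prime ∧ A ≤ ℓ ∧ ℓ ≠ p), ¬ Pattern (p ^ a) ℓ d₁ d₂ d₃
          (h.map (Int.castRingHom (ZMod ℓ)))}) := by
  rintro h ⟨hh, hnt⟩
  by_cases hirr : Irreducible (h.map (Int.castRingHom ℚ))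
  swap
  · exact Or.inl ⟨hh, hirr⟩
  refine Or.inr ⟨hh, fun ℓ hℓ hpat => hnt ⟨hirr, ?_⟩⟩
  obtain ⟨-, h1, h2, h3⟩ := mem_filter.1 hℓ
  refine ⟨ℓ, ⟨h1⟩, by omega, ?_, hpat⟩
  rw [Ne, ZMod.natCast_eq_zero_iff]
  intro h5
  exact h3 ((Nat.prime_dvd_prime_iff_eq h1 hp).1 (h1.dvd_of_dvd_pow h5))

set_option maxHeartbeats 1000000 in
/-- Large dimension. -/
theorem LARGE1.large (hC : Stmt_COVER) (hR : Stmt_RED) (hS : Stmt_CSIEVE) (hPr : Stmt_PRIMES)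
    (hPa : Stmt_PATT) (hL : Stmt_LOWER) (M : ℕ) (hM : M = 8000) :
    ∃ G : ℕ, ∃ Λ : ℝ, 2 ≤ Λ ∧ ∀ g : ℕ, G ≤ g → ∀ z : ℝ, Λ ≤ z → ∀ p a : ℕ, p.Prime → 0 < a →
      ((p ^ a : ℕ) : ℝ) = z ^ (2 * M) → ∀ k d₁ d₂ d₃ : ℕ, FF.Adm g k d₁ d₂ d₃ → g ≤ 1000 * k →
      (({h ∈ realWeil (p ^ a) g | ¬ (Irreducible (h.map (Int.castRingHom ℚ)) ∧
        HasPat (p ^ a) d₁ d₂ d₃ h)} : Set ℤ[X]).ncard : ℝ) ≤
          2 / z ^ (300 * k) * (ordinary p (p ^ a) g).ncard := by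
  obtain ⟨Z₀, hZ₀⟩ := hPr
  obtain ⟨Λ₀, hΛ₀⟩ : ∃ Λ₀ : ℝ, Λ₀ = (10 ^ 13) ^ 10 := ⟨_, rfl⟩
  have hΛ₀1 : 6 ≤ Λ₀ := by rw [hΛ₀]; norm_num
  have hΛC : ∀ C : ℝ, 1 ≤ C → C ≤ 10 ^ 13 → C ^ 10 ≤ Λ₀ := by
    intro C h1 h2
    rw [hΛ₀]
    exact pow_le_pow_left₀ (by linarith) h2 10
  clear hΛ₀
  refine ⟨160000, max Λ₀ (2 * Z₀), ?_, fun g hg1 z hz p a hp ha hq k d₁ d₂ d₃ hadm hgk => ?_⟩
  · exact le_trans (by linarith) (le_max_left _ _)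
  have hk160 : 160 ≤ k := by omega
  have hkg : k ≤ g := by
    obtain ⟨h1, -, -, -, -, -, -, h2, -⟩ := hadm
    omega
  have hg0 : 1 ≤ g := by omega
  have hzC : Λ₀ ≤ z := (le_max_left _ _).trans hz
  have hzZ : 2 * (Z₀ : ℝ) ≤ z := (le_max_right _ _).trans hz
  have hz1 : (1 : ℝ) ≤ z := by linarith
  have hzpos : 0 < z := by linarith
  have hg1' : (1 : ℝ) ≤ g := by exact_mod_cast hg0
  have hCg : ∀ C : ℝ, 1 ≤ C → C ≤ 10 ^ 13 → C ^ g ≤ z ^ (100 * k) := fun C h1 h2 =>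
    pow_le_pow_aux h1 ((hΛC C h1 h2).trans hzC) hgk
  have hM1 : 2 * M ≤ 100 * k := by rw [hM]; omega
  have hM2 : 100 * k + 2 * M + 300 * k ≤ M * (g - 1) := by rw [hM]; omega
  have hMk : (z ^ M) ^ k = (z ^ (1000 * k)) ^ 8 := by
    rw [← pow_mul, ← pow_mul, hM]
    congr 1
    ring
  obtain ⟨x, hx⟩ : ∃ x : ℝ, x = z ^ (500 * k) := ⟨_, rfl⟩
  obtain ⟨y, hy⟩ : ∃ y : ℝ, y = z ^ (1000 * k) := ⟨_, rfl⟩
  have hxy : x ^ 2 = y := by rw [hx, hy, ← pow_mul]; congr 1; ring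
  have hx1 : 1 ≤ x := by rw [hx]; exact one_le_pow₀ hz1
  have hyz : z ≤ y := by rw [hy]; exact le_self_pow₀ hz1 (by omega)
  have hyk : z ^ (100 * k) ≤ y := by rw [hy]; exact pow_le_pow_right₀ hz1 (by omega)
  obtain ⟨Z, R, ρ, hRnat, hR1, hρ0, hρ1, hZρ, h2ρ, hZy, hA2, hZZ₀, hZ3⟩ :=
    params (g := g) (k := k) (Z₀ := Z₀) (y := y) hg0 (fun C h1 h2 => (hCg C h1 h2).trans hyk)
      (by linarith) (by linarith)
  -- the square root of `q`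
  obtain ⟨q, hqdef⟩ : ∃ q : ℕ, q = p ^ a := ⟨_, rfl⟩
  rw [← hqdef] at hq ⊢
  have hq2 : 2 ≤ q := by
    have := Nat.one_lt_pow ha.ne' hp.one_lt
    omega
  have hs : √(q : ℝ) = z ^ M := by
    rw [hq, mul_comm, pow_mul]
    exact Real.sqrt_sq (by positivity)
  have hprimes := hZ₀ Z hZZ₀ (100 * g + 1) p hA2
  obtain ⟨N, hN⟩ : ∃ N : ℝ, N = (((range (Z + 1)).filter
    fun ℓ => ℓ.Prime ∧ 100 * g + 1 ≤ ℓ ∧ ℓ ≠ p).card : ℝ) := ⟨_, rfl⟩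
  rw [← hN] at hprimes
  obtain ⟨hNpos, hη⟩ := saving (g := g) (k := k) (Z := Z) hxy hx1 hg1' h2ρ hZy
    (by exact_mod_cast hZ3) hprimes
  have hNnat : 0 < ((range (Z + 1)).filter fun ℓ => ℓ.Prime ∧ 100 * g + 1 ≤ ℓ ∧ ℓ ≠ p).card := by
    rw [hN] at hNpos
    exact_mod_cast hNpos
  -- the count
  have hcover := hC q g k R (256 * (g : ℝ) ^ 6 / N + 3 * (2 ^ (g - k) * ρ))
    {h : ℤ[X] | ∀ ℓ ∈ (range (Z + 1)).filter
        (fun ℓ => ℓ.Prime ∧ 100 * g + 1 ≤ ℓ ∧ ℓ ≠ p), ¬ Pattern q ℓ d₁ d₂ d₃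
          (h.map (Int.castRingHom (ZMod ℓ)))} hq2 hg0 hkg hRnat
    (by rw [hs, hMk, ← hy]; exact hR1) (by positivity)
    (fun t u => by
      rw [hqdef, hN]
      exact cube_sieve hS hPa hp hadm (by omega) hg0 hρ0 hρ1 hZρ hNnat t u)
  have hred := hR q g hq2 hg0
  have hlow := hL p a g hp ha hg0
  have hsq : √((p : ℝ) ^ a) = √(q : ℝ) := by rw [hqdef]; push_cast; rfl
  rw [hsq, ← hqdef] at hlow
  obtain ⟨U, hU⟩ : ∃ U : ℝ, U = √(q : ℝ) ^ (g * (g + 1) / 2) / √(g.factorial : ℝ) := ⟨_, rfl⟩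
  have hfac : (0 : ℝ) < √(g.factorial : ℝ) := Real.sqrt_pos.2 (by exact_mod_cast g.factorial_pos)
  have hspos : 0 < √(q : ℝ) := by rw [hs]; positivity
  have hUpos : 0 < U := by rw [hU]; positivity
  obtain ⟨O, hO⟩ : ∃ O : ℝ, O = ((ordinary p q g).ncard : ℝ) := ⟨_, rfl⟩
  rw [← hO] at hlow ⊢
  have hppos : (0 : ℝ) < p := by exact_mod_cast hp.pos
  have hO0 : 0 ≤ O := by rw [hO]; positivity
  have h1 : √(q : ℝ) ^ (g * (g + 1) / 2) / (p * 2000 ^ g * √(g.factorial : ℝ)) =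
      U / (p * 2000 ^ g) := by
    rw [hU, div_div, mul_comm (√(g.factorial : ℝ))]
  rw [h1] at hlow
  have hUO : U ≤ z ^ (2 * M) * 2000 ^ g * O := by
    rw [div_le_iff₀ (by positivity)] at hlow
    refine hlow.trans ?_
    rw [mul_comm]
    have h2 : (p : ℝ) ≤ z ^ (2 * M) := by
      rw [← hq, hqdef]
      exact_mod_cast Nat.le_self_pow ha.ne' p
    gcongr
  have hfin : (realWeil q g).Finite := realWeil_finite q
  have hexc : (({h ∈ realWeil q g | ¬ (Irreducible (h.map (Int.castRingHom ℚ)) ∧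
        HasPat q d₁ d₂ d₃ h)} : Set ℤ[X]).ncard : ℝ) ≤
      (({h ∈ realWeil q g | ¬ Irreducible (h.map (Int.castRingHom ℚ))} : Set ℤ[X]).ncard : ℝ) +
      ((realWeil q g ∩ {h : ℤ[X] | ∀ ℓ ∈ (range (Z + 1)).filter
        (fun ℓ => ℓ.Prime ∧ 100 * g + 1 ≤ ℓ ∧ ℓ ≠ p), ¬ Pattern q ℓ d₁ d₂ d₃
          (h.map (Int.castRingHom (ZMod ℓ)))}).ncard : ℝ) := by
    have hsub := LARGE1.exc_sub (a := a) (g := g) (d₁ := d₁) (d₂ := d₂) (d₃ := d₃) (Z := Z) hp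
      (by omega : 3 ≤ 100 * g + 1)
    rw [← hqdef] at hsub
    have h1 := (Set.ncard_le_ncard hsub ((hfin.subset fun h hh => hh.1).union
        (hfin.subset fun h hh => hh.1))).trans (Set.ncard_union_le _ _)
    exact_mod_cast h1
  refine hexc.trans ?_
  -- first term
  have t1 : (({h ∈ realWeil q g | ¬ Irreducible (h.map (Int.castRingHom ℚ))} : Set ℤ[X]).ncard : ℝ)
      ≤ 1 / z ^ (300 * k) * O := by
    refine hred.trans ?_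
    have e1 : (g : ℝ) * 300 ^ g * √(q : ℝ) ^ (g * (g + 1) / 2) /
        (√(q : ℝ) ^ (g - 1) * √(g.factorial : ℝ)) = (g : ℝ) * 300 ^ g / √(q : ℝ) ^ (g - 1) * U := by
      rw [hU, div_mul_div_comm]
    rw [e1, hs]
    exact term1 hz1 hO0 (hCg _ (by norm_num) (by norm_num)) hM2 hUpos.le hUO
  -- second term
  have t2 : ((realWeil q g ∩ {h : ℤ[X] | ∀ ℓ ∈ (range (Z + 1)).filter
        (fun ℓ => ℓ.Prime ∧ 100 * g + 1 ≤ ℓ ∧ ℓ ≠ p), ¬ Pattern q ℓ d₁ d₂ d₃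
          (h.map (Int.castRingHom (ZMod ℓ)))}).ncard : ℝ) ≤ 1 / z ^ (300 * k) * O := by
    refine hcover.trans ?_
    have e1 : (200 : ℝ) ^ g * √(q : ℝ) ^ (g * (g + 1) / 2) / √(g.factorial : ℝ) =
        200 ^ g * U := by
      rw [hU, mul_div_assoc]
    rw [e1]
    refine le_trans (mul_le_mul_of_nonneg_right hη (by positivity)) ?_
    rw [hx]
    exact term2 hz1 hg0 hO0 (hCg _ (by norm_num) (by norm_num)) hM1 hUpos.le hUO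
  have hfinal : (2 : ℝ) / z ^ (300 * k) * O = 1 / z ^ (300 * k) * O + 1 / z ^ (300 * k) * O := by
    ring
  rw [hfinal]
  exact add_le_add t1 t2

/-- LARGE1 -/
theorem stmt_LARGE1 (hC : FF.Stmt_COVER) (hR : FF.Stmt_RED) (hS : FF.Stmt_CSIEVE)
    (hPr : FF.Stmt_PRIMES) (hPa : FF.Stmt_PATT) (hL : FF.Stmt_LOWER) : Stmt_LARGE1 := by
  obtain ⟨M, hM⟩ : ∃ M : ℕ, M = 8000 := ⟨_, rfl⟩
  obtain ⟨G, Λ, hΛ, hlarge⟩ := LARGE1.large hC hR hS hPr hPa hL M hM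
  have hM0 : (0 : ℝ) < 2 * M := by
    have : 0 < M := by omega
    positivity
  refine ⟨1 / 160000, by norm_num, max G 1, ⌈Λ ^ (2 * M)⌉₊,
    fun p a hp ha hQ g hg k d₁ d₂ d₃ hadm hgk => ?_⟩
  obtain ⟨q, hq⟩ : ∃ q : ℝ, q = ((p ^ a : ℕ) : ℝ) := ⟨_, rfl⟩
  have hqq : (p : ℝ) ^ a = q := by rw [hq]; push_cast; rfl
  rw [hqq]
  have hq1 : (1 : ℝ) ≤ q := by
    rw [hq]
    exact_mod_cast Nat.one_le_pow _ _ hp.pos
  have hqpos : 0 < q := by linarith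
  have hg0 : (0 : ℝ) ≤ g := Nat.cast_nonneg g
  obtain ⟨z, hz⟩ : ∃ z : ℝ, z = q ^ (1 / (2 * (M : ℝ))) := ⟨_, rfl⟩
  have hzpos : 0 < z := by rw [hz]; exact Real.rpow_pos_of_pos hqpos _
  have hzq : z ^ (2 * M) = q := by
    rw [hz, ← Real.rpow_natCast, ← Real.rpow_mul hqpos.le]
    push_cast
    rw [one_div, inv_mul_cancel₀ hM0.ne', Real.rpow_one]
  have hΛq : Λ ^ (2 * M) ≤ q := by
    have h1 := Nat.le_ceil (Λ ^ (2 * M))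
    have h2 : ((⌈Λ ^ (2 * M)⌉₊ : ℕ) : ℝ) ≤ q := by
      rw [hq]
      exact_mod_cast hQ
    linarith
  have hΛz : Λ ≤ z := by
    rw [← hzq] at hΛq
    exact le_of_pow_le_pow_left₀ (by omega) hzpos.le hΛq
  have hz1 : 1 ≤ z := by linarith
  have h1 := hlarge g ((le_max_left _ _).trans hg) z hΛz p a hp ha
    (by rw [← hq, hzq]) k d₁ d₂ d₃ hadm hgk
  have hg1 : 1 ≤ g := (le_max_right _ _).trans hg
  have h2 : (0 : ℝ) ≤ ((ordinary p (p ^ a) g).ncard : ℝ) := Nat.cast_nonneg _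
  refine h1.trans ?_
  refine mul_le_mul_of_nonneg_right ?_ h2
  have hk : 1 ≤ k := by omega
  have h3 : q ^ (-(1 / 160000 * (g : ℝ))) = z ^ (-((2 * M : ℝ) * (1 / 160000 * g))) := by
    rw [← hzq, ← Real.rpow_natCast z, ← Real.rpow_mul hzpos.le]
    push_cast
    congr 1
    ring
  have h4 : (2 * M : ℝ) * (1 / 160000 * g) ≤ ((100 * k : ℕ) : ℝ) := by
    have e1 : (M : ℝ) = 8000 := by rw [hM]; norm_num
    have e2 : (g : ℝ) ≤ 1000 * k := by exact_mod_cast hgk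
    rw [e1]
    push_cast
    calc (2 * 8000 : ℝ) * (1 / 160000 * g) ≤ (2 * 8000) * (1 / 160000 * (1000 * k)) := by gcongr
      _ = 100 * k := by ring
  have h5 : z ^ (-(((100 * k : ℕ) : ℝ))) ≤ q ^ (-(1 / 160000 * (g : ℝ))) := by
    rw [h3]
    exact Real.rpow_le_rpow_of_exponent_le hz1 (neg_le_neg h4)
  refine le_trans ?_ h5
  rw [Real.rpow_neg hzpos.le, Real.rpow_natCast, ← one_div,
    div_le_div_iff₀ (by positivity) (by positivity), one_mul]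
  have h6 : 2 ≤ z ^ (200 * k) := by
    calc (2 : ℝ) ≤ z := by linarith
      _ ≤ z ^ (200 * k) := le_self_pow₀ hz1 (by omega)
  calc 2 * z ^ (100 * k) ≤ z ^ (200 * k) * z ^ (100 * k) := by gcongr
    _ = z ^ (300 * k) := by rw [← pow_add]; congr 1; ring

end Pool.Agent.Work.FY
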