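import Pool.Agent.Work.MP_223b32_FY.Interface

/-!
Block LEG: Legendre's sieve.
-/

set_option autoImplicit false

namespace Pool.Agent.Work.FY

open Finset

namespace LEG17

/-- the number of `v` in the interval with `v = a` modulo `m` which avoid the classes `r p` -/
def cnt (x N : ℕ) (r : ℕ → ℕ) (S : Finset ℕ) (m a : ℕ) : ℕ :=
  ((Finset.Ico x (x + N)).filter (fun v => v ≡ a [MOD m] ∧ ∀ p ∈ S, ¬ v ≡ r p [MOD p])).card

theorem cnt_empty (x N : ℕ) (r : ℕ → ℕ) (m a : ℕ) (hm : 0 < m) :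
    |(cnt x N r ∅ m a : ℚ) - N / m| ≤ 1 := by
  unfold cnt
  have h1 := Nat.Ico_filter_modEq_card x (x + N) hm a
  have h2 : ((Finset.Ico x (x + N)).filter
      (fun v => v ≡ a [MOD m] ∧ ∀ p ∈ (∅ : Finset ℕ), ¬ v ≡ r p [MOD p])) =
      (Finset.Ico x (x + N)).filter (fun v => v ≡ a [MOD m]) := by
    apply filter_congr
    intro v _
    simp
  rw [h2]
  have hm' : (0 : ℚ) < m := by exact_mod_cast hm
  set A : ℚ := (((x + N : ℕ) : ℚ) - a) / m with hA
  set B : ℚ := ((x : ℚ) - a) / m with hB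
  have hAB : A - B = N / m := by
    rw [hA, hB]; push_cast; ring
  have hN : (0 : ℚ) ≤ N / m := by positivity
  have h3 : ((((Finset.Ico x (x + N)).filter (fun v => v ≡ a [MOD m])).card : ℤ) : ℚ) =
      ((max (⌈A⌉ - ⌈B⌉) 0 : ℤ) : ℚ) := by
    rw [h1]
  have h4 : ⌈B⌉ ≤ ⌈A⌉ := Int.ceil_le_ceil (by linarith)
  rw [max_eq_left (by linarith), Int.cast_natCast, Int.cast_sub] at h3
  rw [h3, ← hAB, abs_le]
  have hA1 := Int.le_ceil A
  have hA2 := Int.ceil_lt_add_one A
  have hB1 := Int.le_ceil B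
  have hB2 := Int.ceil_lt_add_one B
  constructor <;> linarith

theorem cnt_insert (x N : ℕ) (r : ℕ → ℕ) (S : Finset ℕ) (p : ℕ) (m a : ℕ)
    (hmp : Nat.Coprime m p) : ∃ a' : ℕ,
      cnt x N r (insert p S) m a + cnt x N r S (m * p) a' = cnt x N r S m a := by
  obtain ⟨a', h1, h2⟩ := Nat.chineseRemainder hmp a (r p)
  refine ⟨a', ?_⟩
  unfold cnt
  rw [← card_union_of_disjoint]
  · apply congrArg
    ext v
    rw [mem_union, mem_filter, mem_filter, mem_filter, ← Nat.modEq_and_modEq_iff_modEq_mul hmp]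
    constructor
    · rintro (⟨h3, h4, h5⟩ | ⟨h3, ⟨h4, h5⟩, h6⟩)
      · exact ⟨h3, h4, fun p' hp' => h5 p' (mem_insert_of_mem hp')⟩
      · exact ⟨h3, h4.trans h1, h6⟩
    · rintro ⟨h3, h4, h5⟩
      by_cases h6 : v ≡ r p [MOD p]
      · right
        exact ⟨h3, ⟨h4.trans h1.symm, h6.trans h2.symm⟩, h5⟩
      · left
        refine ⟨h3, h4, fun p' hp' => ?_⟩
        rcases mem_insert.1 hp' with h7 | h7
        · rw [h7]; exact h6
        · exact h5 p' h7
  · rw [disjoint_left]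
    intro v hv hv'
    rw [mem_filter] at hv hv'
    rw [← Nat.modEq_and_modEq_iff_modEq_mul hmp] at hv'
    exact hv.2.2 p (mem_insert_self p S) (hv'.2.1.2.trans h2)

theorem cnt_bound (x N : ℕ) (r : ℕ → ℕ) (S : Finset ℕ) (hS : ∀ p ∈ S, p.Prime) :
    ∀ m a : ℕ, 0 < m → (∀ p ∈ S, Nat.Coprime m p) →
      |(cnt x N r S m a : ℚ) - N / m * ∏ p ∈ S, (1 - 1 / (p : ℚ))| ≤ 2 ^ S.card := by
  induction S using Finset.induction_on with
  | empty =>
    intro m a hm _
    rw [prod_empty, mul_one, card_empty, pow_zero]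
    exact cnt_empty x N r m a hm
  | insert p S hp ih =>
    intro m a hm hco
    have ihS := ih (fun p' hp' => hS p' (mem_insert_of_mem hp'))
    have hpp : p.Prime := hS p (mem_insert_self p S)
    have hmp : Nat.Coprime m p := hco p (mem_insert_self p S)
    obtain ⟨a', ha'⟩ := cnt_insert x N r S p m a hmp
    have h1 := ihS m a hm (fun p' hp' => hco p' (mem_insert_of_mem hp'))
    have h2 := ihS (m * p) a' (Nat.mul_pos hm hpp.pos) (fun p' hp' => by
      apply Nat.Coprime.mul_left (hco p' (mem_insert_of_mem hp'))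
      rw [Nat.coprime_primes hpp (hS p' (mem_insert_of_mem hp'))]
      intro h3
      exact hp (h3 ▸ hp'))
    have h3 : (cnt x N r (insert p S) m a : ℚ) =
        (cnt x N r S m a : ℚ) - cnt x N r S (m * p) a' := by
      rw [← ha']; push_cast; ring
    rw [prod_insert hp, card_insert_of_notMem hp, pow_succ, h3]
    have hp0 : (p : ℚ) ≠ 0 := by exact_mod_cast hpp.ne_zero
    have hm0 : (m : ℚ) ≠ 0 := by exact_mod_cast hm.ne'
    set Q : ℚ := ∏ p ∈ S, (1 - 1 / (p : ℚ)) with hQ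
    have h4 : (cnt x N r S m a : ℚ) - cnt x N r S (m * p) a' -
        N / m * ((1 - 1 / (p : ℚ)) * Q) =
        ((cnt x N r S m a : ℚ) - N / m * Q) -
          ((cnt x N r S (m * p) a' : ℚ) - N / ((m * p : ℕ) : ℚ) * Q) := by
      push_cast
      field_simp
      ring
    rw [h4]
    refine (abs_sub _ _).trans ?_
    linarith

theorem prod_bound : ∀ n : ℕ, ∀ S : Finset ℕ, S.card = n → (∀ p ∈ S, 2 ≤ p) →
    1 / ((n : ℚ) + 1) ≤ ∏ p ∈ S, (1 - 1 / (p : ℚ)) := by
  intro n
  induction n with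
  | zero =>
    intro S hS _
    rw [card_eq_zero.1 hS, prod_empty]
    norm_num
  | succ n ih =>
    intro S hS h2
    have hne : S.Nonempty := by
      rw [← card_pos]; omega
    set M := S.max' hne with hM
    have hMS : M ∈ S := S.max'_mem hne
    have hMle : n + 2 ≤ M := by
      have h3 : S ⊆ Finset.Icc 2 M := by
        intro p hp
        rw [mem_Icc]
        exact ⟨h2 p hp, S.le_max' p hp⟩
      have h4 := card_le_card h3
      rw [Nat.card_Icc, hS] at h4
      omega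
    have h5 := ih (S.erase M) (by rw [card_erase_of_mem hMS, hS]; rfl)
      (fun p hp => h2 p (mem_of_mem_erase hp))
    rw [← mul_prod_erase S _ hMS]
    have hM2 : ((n : ℚ) + 2) ≤ M := by exact_mod_cast hMle
    have h6 : ((n : ℚ) + 1) / (n + 2) ≤ 1 - 1 / (M : ℚ) := by
      have h7 : 1 / (M : ℚ) ≤ 1 / (n + 2) := one_div_le_one_div_of_le (by positivity) hM2
      have h8 : ((n : ℚ) + 1) / (n + 2) = 1 - 1 / (n + 2) := by
        field_simp
        ring
      rw [h8]
      linarith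
    calc 1 / (((n + 1 : ℕ) : ℚ) + 1) = ((n : ℚ) + 1) / (n + 2) * (1 / ((n : ℚ) + 1)) := by
          push_cast
          field_simp
          ring
      _ ≤ (1 - 1 / (M : ℚ)) * ∏ p ∈ S.erase M, (1 - 1 / (p : ℚ)) := by
          have h9 : (0 : ℚ) ≤ 1 - 1 / (M : ℚ) := le_trans (by positivity) h6
          exact mul_le_mul h6 h5 (by positivity) h9

end LEG17

theorem stmt_LEG : Stmt_LEG := by
  intro S Bad hS hBad x N hN
  choose! r hr using hBad
  have h1 := LEG17.cnt_bound x N r S hS 1 0 Nat.one_pos (fun p _ => Nat.coprime_one_left p)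
  have h2 := LEG17.prod_bound S.card S rfl (fun p hp => (hS p hp).two_le)
  have h3 : 0 < LEG17.cnt x N r S 1 0 := by
    have h4 : (0 : ℚ) < LEG17.cnt x N r S 1 0 := by
      have h5 := (abs_le.1 h1).1
      rw [Nat.cast_one, div_one] at h5
      have h6 : (2 : ℚ) ^ S.card * (S.card + 1) < N := by exact_mod_cast hN
      have h7 : (2 : ℚ) ^ S.card < N * (1 / ((S.card : ℚ) + 1)) := by
        rw [mul_one_div, lt_div_iff₀ (by positivity)]
        exact h6
      have h8 : (N : ℚ) * (1 / ((S.card : ℚ) + 1)) ≤ N * ∏ p ∈ S, (1 - 1 / (p : ℚ)) :=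
        mul_le_mul_of_nonneg_left h2 (Nat.cast_nonneg _)
      linarith
    exact_mod_cast h4
  unfold LEG17.cnt at h3
  obtain ⟨v, hv⟩ := card_pos.1 h3
  rw [mem_filter, mem_Ico] at hv
  refine ⟨v, hv.1.1, hv.1.2, fun p hp hb => ?_⟩
  exact hv.2.2 p hp (hr p hp v hb)

end Pool.Agent.Work.FY
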