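import Pool.Agent.Work.MP_223b32_FY.Interface2

/-!
# Block TUP: the union bound
-/

namespace Pool.Agent.Work.FY

open Polynomial Finset Pool.Agent.Work.MP_223b32_ag_56

/-- Tuples with one entry in a small set. -/
theorem TUP.one {α : Type*} [DecidableEq α] (r : ℕ) (S B : Finset α) (i : Fin r) :
    ((Fintype.piFinset fun _ : Fin r => S).filter fun h => h i ∈ B).card ≤
      B.card * S.card ^ (r - 1) := by
  have h1 : ((Fintype.piFinset fun _ : Fin r => S).filter fun h => h i ∈ B) ⊆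
      Fintype.piFinset (Function.update (fun _ : Fin r => S) i B) := by
    intro h hh
    obtain ⟨h1, h2⟩ := mem_filter.1 hh
    rw [Fintype.mem_piFinset] at h1 ⊢
    intro j
    rcases eq_or_ne j i with rfl | hj
    · rw [Function.update_self]
      exact h2
    · rw [Function.update_of_ne hj]
      exact h1 j
  refine (card_le_card h1).trans ?_
  rw [Fintype.card_piFinset, ← mul_prod_erase univ _ (mem_univ i), Function.update_self]
  refine Nat.mul_le_mul_left _ (le_of_eq ?_)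
  calc ∏ j ∈ univ.erase i, (Function.update (fun _ : Fin r => S) i B j).card =
        ∏ j ∈ univ.erase i, S.card := by
        refine prod_congr rfl fun j hj => ?_
        rw [Function.update_of_ne (ne_of_mem_erase hj)]
    _ = S.card ^ (r - 1) := by
        rw [prod_const, card_erase_of_mem (mem_univ i), card_univ, Fintype.card_fin]

/-- Tuples with a pair of entries in a small set. -/
theorem TUP.two {α : Type*} [DecidableEq α] (r : ℕ) (S : Finset α) (B : Finset (α × α))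
    (i j : Fin r) (hij : i ≠ j) :
    ((Fintype.piFinset fun _ : Fin r => S).filter fun h => (h i, h j) ∈ B).card ≤
      B.card * S.card ^ (r - 2) := by
  rw [mul_comm]
  refine card_le_mul_card_image_of_maps_to (f := fun h : Fin r → α => (h i, h j))
    (fun h hh => (mem_filter.1 hh).2) _ fun b hb => ?_
  have h1 : (((Fintype.piFinset fun _ : Fin r => S).filter fun h => (h i, h j) ∈ B).filter
      fun h => (h i, h j) = b) ⊆
      Fintype.piFinset (Function.update (Function.update (fun _ : Fin r => S) i {b.1}) j {b.2}) := by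
    intro h hh
    obtain ⟨h1, h2⟩ := mem_filter.1 hh
    have h3 := (mem_filter.1 h1).1
    rw [Fintype.mem_piFinset] at h3 ⊢
    intro l
    rcases eq_or_ne l j with rfl | hj
    · rw [Function.update_self, mem_singleton, ← h2]
    rw [Function.update_of_ne hj]
    rcases eq_or_ne l i with rfl | hi
    · rw [Function.update_self, mem_singleton, ← h2]
    rw [Function.update_of_ne hi]
    exact h3 l
  refine (card_le_card h1).trans ?_
  have hi : i ∈ univ.erase j := mem_erase.2 ⟨hij, mem_univ i⟩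
  rw [Fintype.card_piFinset, ← mul_prod_erase univ _ (mem_univ j), Function.update_self,
    ← mul_prod_erase _ _ hi, Function.update_of_ne hij, Function.update_self, card_singleton,
    card_singleton, one_mul, one_mul]
  refine le_of_eq ?_
  calc ∏ l ∈ (univ.erase j).erase i, (Function.update (Function.update (fun _ : Fin r => S) i {b.1})
          j {b.2} l).card = ∏ l ∈ (univ.erase j).erase i, S.card := by
        refine prod_congr rfl fun l hl => ?_
        obtain ⟨h2, h3⟩ := mem_erase.1 hl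
        rw [Function.update_of_ne (ne_of_mem_erase h3), Function.update_of_ne h2]
    _ = S.card ^ (r - 2) := by
        rw [prod_const, card_erase_of_mem hi, card_erase_of_mem (mem_univ j), card_univ,
          Fintype.card_fin, Nat.sub_sub]

/-- The union bound. -/
theorem TUP.union {α : Type*} [DecidableEq α] (r : ℕ) (hr : 1 ≤ r) (S B₁ : Finset α)
    (B₂ : Finset (α × α)) (E : Set (Fin r → α)) (ε O : ℝ) (hε : 0 ≤ ε) (hO0 : 0 ≤ O)
    (hO : O ≤ S.card) (h1 : (B₁.card : ℝ) ≤ ε * O) (h2 : (B₂.card : ℝ) ≤ ε * O ^ 2)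
    (hE : ∀ h ∈ E, (∀ i, h i ∈ S) ∧ ((∃ i, h i ∈ B₁) ∨ ∃ i j, i ≠ j ∧ (h i, h j) ∈ B₂)) :
    (E.ncard : ℝ) ≤ r ^ 2 * ε * (S.card : ℝ) ^ r := by
  set F : Finset (Fin r → α) :=
    (univ.biUnion fun i => (Fintype.piFinset fun _ : Fin r => S).filter fun h => h i ∈ B₁) ∪
      ((univ : Finset (Fin r)).offDiag.biUnion fun ij =>
        (Fintype.piFinset fun _ : Fin r => S).filter fun h => (h ij.1, h ij.2) ∈ B₂) with hF
  have hsub : E ⊆ (F : Set (Fin r → α)) := by
    intro h hh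
    obtain ⟨h3, h4⟩ := hE h hh
    rw [mem_coe, hF, mem_union]
    rcases h4 with ⟨i, hi⟩ | ⟨i, j, hij, hb⟩
    · left
      rw [mem_biUnion]
      exact ⟨i, mem_univ i, mem_filter.2 ⟨Fintype.mem_piFinset.2 h3, hi⟩⟩
    · right
      rw [mem_biUnion]
      exact ⟨(i, j), mem_offDiag.2 ⟨mem_univ _, mem_univ _, hij⟩,
        mem_filter.2 ⟨Fintype.mem_piFinset.2 h3, hb⟩⟩
  have hcard : E.ncard ≤ F.card := by
    rw [← Set.ncard_coe_finset]
    exact Set.ncard_le_ncard hsub (finite_toSet F)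
  have hFc : F.card ≤ r * (B₁.card * S.card ^ (r - 1)) + (r * r - r) * (B₂.card * S.card ^ (r - 2)) := by
    refine (card_union_le _ _).trans (Nat.add_le_add ?_ ?_)
    · refine (card_biUnion_le).trans ?_
      refine (sum_le_card_nsmul _ _ _ fun i _ => TUP.one r S B₁ i).trans ?_
      rw [card_univ, Fintype.card_fin, smul_eq_mul]
    · refine (card_biUnion_le).trans ?_
      refine (sum_le_card_nsmul _ _ _ fun ij hij =>
        TUP.two r S B₂ ij.1 ij.2 (mem_offDiag.1 hij).2.2).trans ?_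
      rw [offDiag_card, card_univ, Fintype.card_fin, smul_eq_mul]
  have hreal : (E.ncard : ℝ) ≤ r * (B₁.card * (S.card : ℝ) ^ (r - 1)) +
      ((r : ℝ) * r - r) * (B₂.card * (S.card : ℝ) ^ (r - 2)) := by
    have h3 : (E.ncard : ℝ) ≤ ((r * (B₁.card * S.card ^ (r - 1)) +
      (r * r - r) * (B₂.card * S.card ^ (r - 2)) : ℕ) : ℝ) := by exact_mod_cast hcard.trans hFc
    refine h3.trans (le_of_eq ?_)
    have h4 : r ≤ r * r := Nat.le_mul_self r
    push_cast [Nat.cast_sub h4]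
    ring
  refine hreal.trans ?_
  obtain ⟨s, hs⟩ : ∃ s : ℝ, s = (S.card : ℝ) := ⟨_, rfl⟩
  rw [← hs] at hO ⊢
  have hs0 : 0 ≤ s := hO0.trans hO
  have hr1 : (1 : ℝ) ≤ r := by exact_mod_cast hr
  have t1 : (B₁.card : ℝ) * s ^ (r - 1) ≤ ε * s ^ r := by
    calc (B₁.card : ℝ) * s ^ (r - 1) ≤ (ε * O) * s ^ (r - 1) := by gcongr
      _ ≤ (ε * s) * s ^ (r - 1) := by gcongr
      _ = ε * s ^ r := by
          obtain ⟨m, rfl⟩ : ∃ m, r = m + 1 := ⟨r - 1, by omega⟩
          rw [Nat.add_sub_cancel, pow_succ]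
          ring
  have t2 : ((r : ℝ) * r - r) * ((B₂.card : ℝ) * s ^ (r - 2)) ≤ ((r : ℝ) * r - r) * (ε * s ^ r) := by
    rcases Nat.lt_or_ge r 2 with hr2 | hr2
    · obtain rfl : r = 1 := by omega
      norm_num
    have h3 : (0 : ℝ) ≤ (r : ℝ) * r - r := by nlinarith
    refine mul_le_mul_of_nonneg_left ?_ h3
    calc (B₂.card : ℝ) * s ^ (r - 2) ≤ (ε * O ^ 2) * s ^ (r - 2) := by gcongr
      _ ≤ (ε * s ^ 2) * s ^ (r - 2) := by gcongr
      _ = ε * s ^ r := by
          obtain ⟨m, rfl⟩ : ∃ m, r = m + 2 := ⟨r - 2, by omega⟩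
          rw [Nat.add_sub_cancel, pow_add]
          ring
  calc (r : ℝ) * (B₁.card * s ^ (r - 1)) + ((r : ℝ) * r - r) * (B₂.card * s ^ (r - 2)) ≤
        r * (ε * s ^ r) + ((r : ℝ) * r - r) * (ε * s ^ r) := by gcongr
    _ = r ^ 2 * ε * s ^ r := by ring

/-- TUP -/
theorem stmt_TUP (hL1 : Stmt_LARGE1) (hL2 : Stmt_LARGE2) (hA : Stmt_ARI2) (hJ : Stmt_JOIN) :
    Stmt_TUP := by
  classical
  obtain ⟨c₁, hc₁, G₁, Q₁, h1⟩ := hL1
  obtain ⟨c₂, hc₂, G₂, Q₂, h2⟩ := hL2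
  obtain ⟨G₃, h3⟩ := hA
  refine ⟨min c₁ c₂, lt_min hc₁ hc₂, max Q₁ Q₂, max G₁ (max G₂ G₃),
    fun p a hp ha hQ g hg I hI1 hI2 r hr => ?_⟩
  have hQ1 : Q₁ ≤ p ^ a := (le_max_left _ _).trans hQ
  have hQ2 : Q₂ ≤ p ^ a := (le_max_right _ _).trans hQ
  have hg1 : G₁ ≤ g := (le_max_left _ _).trans hg
  have hg2 : G₂ ≤ g := ((le_max_left _ _).trans (le_max_right _ _)).trans hg
  have hg3 : G₃ ≤ g := ((le_max_right _ _).trans (le_max_right _ _)).trans hg
  obtain ⟨k, d₁, d₂, d₃, k', e₁, e₂, e₃, hd, he, hgk, hgk', hde, hed⟩ := h3 g hg3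
  have b1 := h1 p a hp ha hQ1 g hg1 k d₁ d₂ d₃ hd.1 hgk
  have b2 := h2 p a hp ha hQ2 g hg2 k d₁ d₂ d₃ k' e₁ e₂ e₃ hd.1 he.1 hgk hgk'
  have hfin : (realWeil (p ^ a) g).Finite := realWeil_finite _
  have hf1 : ({h ∈ realWeil (p ^ a) g | ¬ (Irreducible (h.map (Int.castRingHom ℚ)) ∧
      HasPat (p ^ a) d₁ d₂ d₃ h)} : Set ℤ[X]).Finite := hfin.subset fun h hh => hh.1
  have hf2 : ((realWeil (p ^ a) g ×ˢ realWeil (p ^ a) g) ∩
      {h : ℤ[X] × ℤ[X] | ¬ HasPat2 (p ^ a) d₁ d₂ d₃ e₁ e₂ e₃ h.1 h.2}).Finite :=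
    (hfin.prod hfin).subset Set.inter_subset_left
  have hfI : I.Finite := hfin.subset hI2
  have hq1 : (1 : ℝ) ≤ (p : ℝ) ^ a := by exact_mod_cast Nat.one_le_pow _ _ hp.pos
  have hq0 : (0 : ℝ) ≤ (p : ℝ) ^ a := by linarith
  have hg0 : (0 : ℝ) ≤ g := Nat.cast_nonneg g
  have hexp : ∀ c : ℝ, min c₁ c₂ ≤ c →
      ((p : ℝ) ^ a) ^ (-(c * g)) ≤ ((p : ℝ) ^ a) ^ (-(min c₁ c₂ * g)) := by
    intro c hc
    refine Real.rpow_le_rpow_of_exponent_le hq1 (neg_le_neg ?_)
    gcongr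
  have hOI : ((ordinary p (p ^ a) g).ncard : ℝ) ≤ (hfI.toFinset.card : ℝ) := by
    rw [← Set.ncard_eq_toFinset_card I hfI]
    exact_mod_cast Set.ncard_le_ncard hI1 hfI
  rw [Set.ncard_eq_toFinset_card _ hf1] at b1
  rw [Set.ncard_eq_toFinset_card _ hf2] at b2
  rw [Set.ncard_eq_toFinset_card I hfI]
  refine TUP.union r hr hfI.toFinset hf1.toFinset hf2.toFinset (exceptionalT (p ^ a) g r I)
    (((p : ℝ) ^ a) ^ (-(min c₁ c₂ * g))) ((ordinary p (p ^ a) g).ncard : ℝ)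
    (Real.rpow_nonneg hq0 _) (Nat.cast_nonneg _) hOI ?_ ?_ ?_
  · exact b1.trans (mul_le_mul_of_nonneg_right (hexp _ (min_le_left _ _)) (Nat.cast_nonneg _))
  · exact b2.trans (mul_le_mul_of_nonneg_right (hexp _ (min_le_right _ _)) (by positivity))
  rintro h ⟨hh, hnt⟩
  refine ⟨fun i => hfI.mem_toFinset.2 (hh i), ?_⟩
  by_contra hcon
  push Not at hcon
  obtain ⟨hc1, hc2⟩ := hcon
  refine hnt (hJ (p ^ a) g k d₁ d₂ d₃ k' e₁ e₂ e₃ r h (Nat.one_lt_pow ha.ne' hp.one_lt) hd he hde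
    hed (fun i => ?_) fun i j hij => ?_)
  · have h4 := hI2 (hh i)
    have h5 := hc1 i
    rw [Set.Finite.mem_toFinset] at h5
    have h6 : Irreducible ((h i).map (Int.castRingHom ℚ)) ∧ HasPat (p ^ a) d₁ d₂ d₃ (h i) := by
      by_contra h7
      exact h5 ⟨h4, fun h8 h9 => h7 ⟨h8, h9⟩⟩
    exact ⟨h4.1, h4.2.1, h6.1, h6.2⟩
  · have h5 := hc2 i j hij.ne
    rw [Set.Finite.mem_toFinset] at h5
    by_contra h7
    exact h5 ⟨⟨hI2 (hh i), hI2 (hh j)⟩, h7⟩

end Pool.Agent.Work.FY
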